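import Pool.Statements.S00541
import Pool.Agent.H737R3.Points

set_option autoImplicit false
open Pool Pool.MP_ef83ea_ag

namespace Pool.Agent.S00541

/-- For any nonempty finite set of points in complex projective N-space (N at least 1) with ideal I, every m ≥ 1 satisfies alpha(I^(m))/m ≥ (alpha(I^(3)) + N - 1)/(N + 2), i.e. the Waldschmidt constant is at least that bound. -/
theorem result :
    ∀ (N : ℕ), 1 ≤ N → ∀ S : Finset (Fin (N + 1) → ℂ), S.Nonempty → (∀ p ∈ S, p ≠ 0) →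
      ∀ m : ℕ, 1 ≤ m →
        (((sInf {d : ℕ | ∃ f ∈ (⨅ p ∈ S,
              (Ideal.span (Set.range (fun ij : Fin (N + 1) × Fin (N + 1) =>
                (MvPolynomial.X ij.1 * MvPolynomial.C (p ij.2)
                  - MvPolynomial.X ij.2 * MvPolynomial.C (p ij.1) :
                  MvPolynomial (Fin (N + 1)) ℂ)))) ^ 3),
              f ≠ 0 ∧ f.totalDegree = d} : ℕ) : ℝ) + (N : ℝ) - 1) / ((N : ℝ) + 2)
          ≤ ((sInf {d : ℕ | ∃ f ∈ (⨅ p ∈ S,
              (Ideal.span (Set.range (fun ij : Fin (N + 1) × Fin (N + 1) =>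
                (MvPolynomial.X ij.1 * MvPolynomial.C (p ij.2)
                  - MvPolynomial.X ij.2 * MvPolynomial.C (p ij.1) :
                  MvPolynomial (Fin (N + 1)) ℂ)))) ^ m),
              f ≠ 0 ∧ f.totalDegree = d} : ℕ) : ℝ) / (m : ℝ) := by
  classical
  intro N hN S hSne hS0 m hm
  have key : ∀ t : ℕ, (⨅ p ∈ S,
              (Ideal.span (Set.range (fun ij : Fin (N + 1) × Fin (N + 1) =>
                (MvPolynomial.X ij.1 * MvPolynomial.C (p ij.2)
                  - MvPolynomial.X ij.2 * MvPolynomial.C (p ij.1) :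
                  MvPolynomial (Fin (N + 1)) ℂ)))) ^ t) =
      (⨅ p ∈ S, Pool.Agent.H737R3.linI p ^ t : Ideal (MvPolynomial (Fin (N + 1)) ℂ)) := by
    intro t
    refine iInf_congr fun p => iInf_congr fun hp => ?_
    rw [Pool.Agent.H737R3.span_eq_linI (hS0 p hp)]
  rw [key 3, key m]
  set a : ℕ := sInf {d : ℕ | ∃ f ∈ (⨅ p ∈ S, Pool.Agent.H737R3.linI p ^ 3 :
    Ideal (MvPolynomial (Fin (N + 1)) ℂ)), f ≠ 0 ∧ f.totalDegree = d} with ha
  set b : ℕ := sInf {d : ℕ | ∃ f ∈ (⨅ p ∈ S, Pool.Agent.H737R3.linI p ^ m :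
    Ideal (MvPolynomial (Fin (N + 1)) ℂ)), f ≠ 0 ∧ f.totalDegree = d} with hb
  have hmem : ∀ (t : ℕ) (f : MvPolynomial (Fin (N + 1)) ℂ),
      f ∈ (⨅ p ∈ S, Pool.Agent.H737R3.linI p ^ t : Ideal (MvPolynomial (Fin (N + 1)) ℂ)) ↔
      ∀ p ∈ S, f ∈ Pool.Agent.H737R3.linI p ^ t := by
    intro t f
    simp only [Submodule.mem_iInf]
  -- a form of degree `b` in the `m`-th symbolic power
  have hne : {d : ℕ | ∃ f ∈ (⨅ p ∈ S, Pool.Agent.H737R3.linI p ^ m :
      Ideal (MvPolynomial (Fin (N + 1)) ℂ)), f ≠ 0 ∧ f.totalDegree = d}.Nonempty := by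
    obtain ⟨f, hf, hf0⟩ := Pool.Agent.H737R3.exists_mem_iInf hN S hS0 (fun _ => m)
    exact ⟨_, f, hf, hf0, rfl⟩
  obtain ⟨f, hf, hf0, hfd⟩ := Nat.sInf_mem hne
  rw [← hb] at hfd
  have hFh := MvPolynomial.homogeneousComponent_isHomogeneous f.totalDegree f
  have hF0 := Pool.Agent.H737R3.top_component hf0
  have hFm : ∀ p ∈ S, MvPolynomial.homogeneousComponent f.totalDegree f ∈
      Pool.Agent.H737R3.linI p ^ m := fun p hp =>
    Pool.Agent.H737R3.component_mem p m ((hmem m f).1 hf p hp) _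
  have hFh' : (MvPolynomial.homogeneousComponent f.totalDegree f).IsHomogeneous b := by
    have h := hFh
    rwa [hfd] at h ⊢
  have main : m * (a + N - 1) ≤ b * (3 + N - 1) := by
    refine Pool.Agent.H737R3.demailly_fat ℂ N 3 a m b (S : Set (Fin (N + 1) → ℂ)) (fun _ => 1)
      (MvPolynomial.homogeneousComponent f.totalDegree f) hN (by norm_num) S.finite_toSet
      ?_ (fun v hv => hS0 v (Finset.mem_coe.1 hv)) ?_ hF0 hFh' ?_
    · obtain ⟨z, hz⟩ := hSne
      exact ⟨z, Finset.mem_coe.2 hz, le_rfl⟩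
    · intro G d hG0 hG hGv
      have h1 : G ∈ (⨅ p ∈ S, Pool.Agent.H737R3.linI p ^ 3 :
          Ideal (MvPolynomial (Fin (N + 1)) ℂ)) := by
        rw [hmem]
        intro p hp
        have h2 := hGv p (Finset.mem_coe.2 hp)
        beta_reduce at h2
        rw [mul_one] at h2
        exact Pool.Agent.H737R3.mem_linI_pow hG (hS0 p hp) h2
      have h3 : a ≤ G.totalDegree := Nat.sInf_le ⟨G, h1, hG0, rfl⟩
      rwa [hG.totalDegree hG0] at h3
    · intro v hv
      beta_reduce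
      rw [mul_one]
      exact Ideal.pow_right_mono (Pool.Agent.H737R3.linI_le_mI v) m (hFm v (Finset.mem_coe.1 hv))
  have h := Pool.Agent.H737R3.real_of_nat hN (by norm_num : 1 ≤ 3) hm main
  have e : ((3 : ℕ) : ℝ) + (N : ℝ) - 1 = (N : ℝ) + 2 := by push_cast; ring
  rw [e] at h
  exact h

end Pool.Agent.S00541
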