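import Pool.Statements.S02378
import Pool.Agent.NH56.AimL

set_option autoImplicit false
open Pool Pool.MP_969c87_al

namespace Pool.Agent.S02378

/-- The negation of the preceding statement: There is a loop whose inner mapping group (generated by the maps L_{x,y}, R_{x,y}, T_x) is abelian, which is nilpotent and whose third upper central term is not the whole loop, i.e. its nilpotency class exceeds three. -/
theorem result :
    ¬ (∃ (Q : Type) (mul : Q → Q → Q) (e : Q) (ldiv rdiv : Q → Q → Q),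
      (∀ x, mul e x = x ∧ mul x e = x) ∧
      (∀ a b, mul a (ldiv a b) = b ∧ ldiv a (mul a b) = b ∧
              mul (rdiv b a) a = b ∧ rdiv (mul b a) a = b) ∧
      (∀ f g : Q → Q,
        ((∃ x y, f = fun z => ldiv (mul x y) (mul x (mul y z))) ∨
         (∃ x y, f = fun z => rdiv (mul (mul z x) y) (mul x y)) ∨
         (∃ x, f = fun z => rdiv (mul x z) x)) →
        ((∃ x y, g = fun z => ldiv (mul x y) (mul x (mul y z))) ∨
         (∃ x y, g = fun z => rdiv (mul (mul z x) y) (mul x y)) ∨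
         (∃ x, g = fun z => rdiv (mul x z) x)) →
        f ∘ g = g ∘ f) ∧
      ∃ Z : ℕ → Set Q,
        Z 0 = {e} ∧
        (∀ k, Z (k + 1) = {a | ∀ x y,
            (∃ n ∈ Z k, mul x a = mul (mul a x) n) ∧
            (∃ n ∈ Z k, mul a (mul x y) = mul (mul (mul a x) y) n) ∧
            (∃ n ∈ Z k, mul x (mul a y) = mul (mul (mul x a) y) n) ∧
            (∃ n ∈ Z k, mul x (mul y a) = mul (mul (mul x y) a) n)}) ∧
        (∃ n, Z n = Set.univ) ∧
        Z 3 ≠ Set.univ) := by
  rintro ⟨Q, mul, e, ldiv, rdiv, he, hdiv, hcomm, Z, hZ0, hZs, ⟨n, hn⟩, h3⟩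
  let i : LpAim.Loop Q :=
    { mul := mul
      one := e
      ld := ldiv
      rd := rdiv
      one_mul' := fun a => (he a).1
      mul_one' := fun a => (he a).2
      mul_ld := fun a b => (hdiv a b).1
      ld_mul := fun a b => (hdiv a b).2.1
      rd_mul := fun a b => (hdiv a b).2.2.1
      mul_rd := fun a b => (hdiv a b).2.2.2 }
  have hgen : ∀ g ∈ LpAim.gens Q, ((∃ x y, (g : Q → Q) = fun z => ldiv (mul x y) (mul x (mul y z))) ∨
         (∃ x y, (g : Q → Q) = fun z => rdiv (mul (mul z x) y) (mul x y)) ∨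
         (∃ x, (g : Q → Q) = fun z => rdiv (mul x z) x)) := by
    rintro g (⟨x, rfl⟩ | ⟨x, y, rfl⟩ | ⟨x, y, rfl⟩)
    · exact Or.inr (Or.inr ⟨x, rfl⟩)
    · exact Or.inl ⟨x, y, rfl⟩
    · exact Or.inr (Or.inl ⟨x, y, rfl⟩)
  have hc : ∀ g ∈ LpAim.gens Q, ∀ h ∈ LpAim.gens Q, g * h = h * g := by
    intro g hg h hh
    apply Equiv.coe_fn_injective
    exact hcomm g h (hgen g hg) (hgen h hh)
  have hZ : ∀ k, Z k = LpAim.H56.Zs Q k := by
    intro k
    induction k with
    | zero => rw [hZ0]; rfl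
    | succ k ih => rw [hZs k, ih]; rfl
  apply h3
  rw [hZ]
  refine LpAim.H56.class_le_three hc n ?_
  rw [← hZ]
  exact hn

end Pool.Agent.S02378
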