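import Pool.Statements.S06533
import Pool.Agent.NH63.OverRec5

set_option autoImplicit false
open MeasureTheory Filter Topology
open Pool Pool.MP_e8a8db_an

namespace Pool.Agent.S06533

/-- Every nontrivial mixing measure-preserving system on a probability space has an over-recurrent set, or a bounded non-constant function f with ∫ f·f∘T^n ≥ (∫ f)^2 for all n ≥ 1. -/
theorem result :
    ∀ (X : Type) [MeasurableSpace X] (μ : Measure X) [IsProbabilityMeasure μ] (T : X → X),
      MeasurePreserving T μ μ →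
      (∃ A : Set X, MeasurableSet A ∧ 0 < μ A ∧ μ A < 1) →
      (∀ A B : Set X, MeasurableSet A → MeasurableSet B →
        Tendsto (fun n : ℕ => μ (A ∩ T^[n] ⁻¹' B)) atTop (𝓝 (μ A * μ B))) →
      (∃ A : Set X, MeasurableSet A ∧ 0 < μ A ∧ μ A < 1 ∧
          ∀ n : ℕ, 1 ≤ n → μ A ^ 2 ≤ μ (A ∩ T^[n] ⁻¹' A)) ∨
      (∃ f : X → ℝ, MemLp f ⊤ μ ∧ (¬ ∃ c : ℝ, f =ᵐ[μ] fun _ => c) ∧
          ∀ n : ℕ, 1 ≤ n → (∫ x, f x ∂μ) ^ 2 ≤ ∫ x, f x * f (T^[n] x) ∂μ) := by
  intro X _ μ _ T hT hne hmix
  right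
  have hmix' : Pool.Agent.NH63.OverRec.MixSets μ T := by
    intro A B hA hB
    have h := hmix A B hA hB
    have h2 := (ENNReal.tendsto_toReal (ENNReal.mul_ne_top (measure_ne_top μ A)
      (measure_ne_top μ B))).comp h
    rw [ENNReal.toReal_mul] at h2
    exact h2
  obtain ⟨A, hA, h0, h1⟩ := hne
  obtain ⟨G, hGm, hGb, hmean, hpos, hcorr⟩ :=
    Pool.Agent.NH63.OverRec.exists_overrecurrent hT hmix' ⟨A, hA,
      ENNReal.toReal_pos h0.ne' (measure_ne_top μ A), by
        have := (ENNReal.toReal_lt_toReal (measure_ne_top μ A) ENNReal.one_ne_top).2 h1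
        rw [ENNReal.toReal_one] at this
        exact this⟩
  refine ⟨G, ?_, ?_, fun n _ => ?_⟩
  · exact memLp_top_of_bound hGm.aestronglyMeasurable 2
      (Eventually.of_forall fun x => by rw [Real.norm_eq_abs]; exact hGb x)
  · rintro ⟨c, hc⟩
    have h2 : ∫ x, G x ∂μ = c := by
      rw [integral_congr_ae hc]
      simp
    rw [hmean] at h2
    have h3 : Pool.Agent.NH63.OverRec.corr μ T G G 0 = 0 := by
      unfold Pool.Agent.NH63.OverRec.corr
      have : (fun x => G x * G (T^[0] x)) =ᵐ[μ] fun _ => (0 : ℝ) := by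
        filter_upwards [hc] with x hx
        rw [Function.iterate_zero, id_eq, hx, ← h2]
        simp
      rw [integral_congr_ae this]
      simp
    exact hpos.ne' h3
  · rw [hmean]
    have := hcorr n
    unfold Pool.Agent.NH63.OverRec.corr at this
    simpa using this

end Pool.Agent.S06533
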