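import Pool.Statements.S14568
import Pool.Agent.NH86.Gen
import Pool.Agent.NH86.Col
import Pool.Agent.NH86.Enc

set_option autoImplicit false
open Classical
open Pool Pool.MP_354b3e_lc

namespace Pool.Agent.S14568

/-- The negation of the preceding statement: For every noncomputable A Turing-below the halting set there is a computable, locally finite, planar graph on ℕ whose neighbour lists are A-computable, with chromatic number 2, but with no computable proper colouring using finitely many colours. -/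
theorem result :
    ¬ (∀ A : Set ℕ,
      ¬ ComputablePred (fun n : ℕ => n ∈ A) →
      TuringReducible (fun n : ℕ => Part.some (if n ∈ A then (1 : ℕ) else 0))
        (fun n : ℕ => Part.some
          (if ((Denumerable.ofNat Nat.Partrec.Code n).eval n).Dom then (1 : ℕ) else 0)) →
      ∃ G : SimpleGraph ℕ,
        ComputablePred (fun p : ℕ × ℕ => G.Adj p.1 p.2) ∧
        (∃ N : ℕ → Finset ℕ, (∀ x y : ℕ, G.Adj x y ↔ y ∈ N x) ∧
          TuringReducible (fun x : ℕ => Part.some (Encodable.encode (N x)))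
            (fun n : ℕ => Part.some (if n ∈ A then (1 : ℕ) else 0))) ∧
        (∃ f : ℕ → EuclideanSpace ℝ (Fin 2), Function.Injective f ∧
          ∃ γ : ∀ u v : ℕ, Path (f u) (f v),
            (∀ u v : ℕ, G.Adj u v → Function.Injective (fun t : unitInterval => γ u v t)) ∧
            (∀ u v w : ℕ, G.Adj u v → ∀ t : unitInterval, γ u v t = f w → w = u ∨ w = v) ∧
            (∀ u v u' v' : ℕ, G.Adj u v → G.Adj u' v' →
              Sym2.mk (u, v) ≠ Sym2.mk (u', v') →
              ∀ t t' : unitInterval, γ u v t = γ u' v' t' →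
                ∃ w : ℕ, (w = u ∨ w = v) ∧ (w = u' ∨ w = v') ∧ γ u v t = f w)) ∧
        G.chromaticNumber = 2 ∧
        ∀ k : ℕ, ∀ c : ℕ → ℕ, Computable c → (∀ x, c x < k) →
          ∃ x y : ℕ, G.Adj x y ∧ c x = c y) := by
  intro hall
  have hchi : ∀ B : Set ℕ, (fun n : ℕ => Part.some (if n ∈ B then (1 : ℕ) else 0)) =
      Pool.Agent.Helper446.Defs.chi B := by
    intro B
    funext n
    unfold Pool.Agent.Helper446.Defs.chi Pool.Agent.Helper446.Defs.chiN
    by_cases h : n ∈ B <;> simp [h]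
  have hK : (fun n : ℕ => Part.some
      (if ((Denumerable.ofNat Nat.Partrec.Code n).eval n).Dom then (1 : ℕ) else 0)) =
      Pool.Agent.Helper446.Defs.chi Pool.Agent.NH86.Gen.K := by
    rw [← hchi]
    rfl
  obtain ⟨G, hG, ⟨N, hN, hNA⟩, -, hchr, hcol⟩ := hall Pool.Agent.NH86.Gen.A
    Pool.Agent.NH86.Gen.A_not_computable (by
      rw [hchi, hK]
      exact Pool.Agent.NH86.Gen.A_le_K)
  rw [hchi] at hNA
  -- the set of pairs `(x, s)` such that `x` has a neighbour above `s`
  have hW : REPred fun p : ℕ × ℕ => ∃ y, G.Adj p.1 y ∧ p.2 < y := by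
    refine Pool.Agent.Helper446.RE.ex (p := fun (p : ℕ × ℕ) (y : ℕ) => G.Adj p.1 y ∧ p.2 < y)
      (Pool.Agent.Helper446.RE.and ?_ (Pool.Agent.Helper446.RE.lt ?_ ?_))
    · exact Pool.Agent.Helper446.RE.comp hG.to_re (f := fun x : (ℕ × ℕ) × ℕ => (x.1.1, x.2))
        (by fun_prop)
    · fun_prop
    · fun_prop
  have hgr := Pool.Agent.Helper446.Oracle.turingReducible_fun_iff.1 hNA
  have hnW : Pool.Agent.Helper446.Oracle.REIn Pool.Agent.NH86.Gen.A
      fun p : ℕ × ℕ => ¬ ∃ y, G.Adj p.1 y ∧ p.2 < y := by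
    have h1 : Pool.Agent.Helper446.Oracle.REIn Pool.Agent.NH86.Gen.A
        fun p : ℕ × ℕ => ∃ l : List ℕ, Encodable.encode (N p.1) = Encodable.encode l ∧
          ∀ y ∈ l, y ≤ p.2 := by
      refine Pool.Agent.Helper446.Oracle.REIn.ex (S := fun (p : ℕ × ℕ) (l : List ℕ) =>
        Encodable.encode (N p.1) = Encodable.encode l ∧ ∀ y ∈ l, y ≤ p.2)
        (Pool.Agent.Helper446.Oracle.REIn.and ?_ (Pool.Agent.Helper446.Oracle.REIn.of_re ?_))
      · exact hgr.comp (f := fun x : (ℕ × ℕ) × List ℕ => (x.1.1, Encodable.encode x.2))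
          (by fun_prop)
      · exact Pool.Agent.Helper446.RE.all_mem (p := fun (x : (ℕ × ℕ) × List ℕ) (y : ℕ) =>
          y ≤ x.1.2) (Pool.Agent.Helper446.RE.le (by fun_prop) (by fun_prop)) (by fun_prop)
    refine h1.of_eq fun p => ?_
    obtain ⟨l, hl, hl2⟩ := Pool.Agent.NH86.Enc.enc_fin (N p.1)
    constructor
    · rintro ⟨l', h2, h3⟩ ⟨y, h4, h5⟩
      rw [← hl] at h2
      have h6 : l = l' := Encodable.encode_injective h2
      have h7 : y ∈ l' := by
        rw [← h6, hl2, ← hN]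
        exact h4
      have := h3 y h7
      omega
    · intro h2
      refine ⟨l, hl.symm, fun y hy => ?_⟩
      by_contra h3
      exact h2 ⟨y, (hN _ _).2 ((hl2 y).1 hy), not_le.1 h3⟩
  have hWc := Pool.Agent.NH86.Gen.computable_of_rein hW hnW
  -- a computable bound for the neighbours
  have hex : ∀ x, ∃ s, ¬ ∃ y, G.Adj x y ∧ s < y := by
    intro x
    refine ⟨(N x).sup id, ?_⟩
    rintro ⟨y, h1, h2⟩
    have h3 : y ≤ (N x).sup id := Finset.le_sup (f := id) ((hN _ _).1 h1)
    omega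
  obtain ⟨f, hf, hf1, hf2⟩ := Pool.Agent.Helper446.RE.uniformize
    (r := fun (x : ℕ) (s : ℕ) => ¬ ∃ y, G.Adj x y ∧ s < y) hWc.not.to_re
  have hdom : ∀ n, ∃ s, s ∈ f n := fun n => ⟨_, Part.get_mem ((hf1 n).2 (hex n))⟩
  choose b hb using hdom
  have hbc : Computable b := hf.of_eq fun n => Part.eq_some_iff.2 (hb n)
  have hbd : ∀ x y, G.Adj x y → y ≤ b x := by
    intro x y hxy
    by_contra h
    exact hf2 x (b x) (hb x) ⟨y, hxy, not_le.1 h⟩
  have h2 : G.Colorable 2 := by
    rw [← SimpleGraph.chromaticNumber_le_iff_colorable, hchr]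
    rfl
  obtain ⟨c, hc1, hc2, hc3⟩ := Pool.Agent.NH86.Col.exists_colouring hG h2 hbc hbd
  obtain ⟨x, y, h3, h4⟩ := hcol 4 c hc1 hc2
  exact hc3 x y h3 h4

end Pool.Agent.S14568
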