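import Pool.Statements.S15828
import Pool.Agent.NH91.FeyMain

set_option autoImplicit false
open Pool Pool.MP_f387d3_mp Pool.Agent.NH91.Fey

namespace Pool.Agent.S15828

/-- The negation of the preceding statement: In the basic Feynman checkers model, with P(x,t) the squared norm of the checker-path amplitude at time t=n+1, there is a constant C such that every maximiser x of P(·,t) is within C of t/√2, for all t. -/
theorem result :
    ¬ (∃ C : ℝ, ∀ n : ℕ, ∀ x : ℤ,
      (∀ y : ℤ,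
        (2:ℝ) ^ (-(n:ℤ)) *
          ‖∑ s ∈ Finset.univ.filter
              (fun s : Fin (n+1) → Bool =>
                s 0 = true ∧ ∑ i, (if s i then (1:ℤ) else -1) = y),
            (-Complex.I) ^ ((Finset.univ.filter
              (fun i : Fin n => s i.castSucc ≠ s i.succ)).card)‖ ^ 2
        ≤
        (2:ℝ) ^ (-(n:ℤ)) *
          ‖∑ s ∈ Finset.univ.filter
              (fun s : Fin (n+1) → Bool =>
                s 0 = true ∧ ∑ i, (if s i then (1:ℤ) else -1) = x),
            (-Complex.I) ^ ((Finset.univ.filter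
              (fun i : Fin n => s i.castSucc ≠ s i.succ)).card)‖ ^ 2) →
      |(x:ℝ) - ((n:ℝ) + 1) / Real.sqrt 2| ≤ C) := by
  rintro ⟨C₀, hC₀⟩
  simp only [total] at hC₀
  -- parameters
  set s : ℝ := Real.sqrt 2 with hs
  have hs2 : s ^ 2 = 2 := Real.sq_sqrt (by norm_num)
  have hspos : 0 < s := Real.sqrt_pos.2 (by norm_num)
  have hs0 : 1.4 < s := by
    by_contra hcon
    push Not at hcon
    have : s ^ 2 ≤ 1.4 ^ 2 := pow_le_pow_left₀ hspos.le hcon 2
    norm_num [hs2] at this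
  have hs1 : s < 1.5 := by
    by_contra hcon
    push Not at hcon
    have : (1.5 : ℝ) ^ 2 ≤ s ^ 2 := pow_le_pow_left₀ (by norm_num) hcon 2
    norm_num [hs2] at this
  set C : ℝ := max C₀ 0 + 2 with hC
  have hCpos : 2 ≤ C := by
    have := le_max_right C₀ 0
    linarith
  have hC0 : C₀ ≤ C - 2 := by
    have := le_max_left C₀ 0
    linarith
  set K : ℝ := 3 * C with hK
  set η : ℝ := 4 * K + 2 with hη
  set c : ℝ := 4 * K + 6 + η * (C + 3) with hc
  obtain ⟨n, hn⟩ := exists_nat_ge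
    (10 * C + 10 * (2 * K + 6) * (c + 1) ^ 2 + 10 * η * K + 10)
  have hpar : Par C (n : ℝ) s K η c := ⟨by linarith, hs2, hs0, hs1, rfl, rfl, rfl, hn⟩
  obtain ⟨hK0, hη0, hc0, hT0⟩ := hpar.pos
  have hnC : 10 * C + 10 ≤ n := by
    have h1 : 0 ≤ 10 * (2 * K + 6) * (c + 1) ^ 2 := by positivity
    have h2 : 0 ≤ 10 * η * K := by positivity
    linarith
  -- a maximiser
  obtain ⟨x, hx, hmax⟩ := Finset.exists_max_image (Finset.Icc (-((n : ℤ) + 1)) ((n : ℤ) + 1))
    (fun y => (A n true y : ℝ) ^ 2 + (A n false y : ℝ) ^ 2)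
    ⟨(n : ℤ) + 1, by rw [Finset.mem_Icc]; constructor <;> omega⟩
  have hmax' : ∀ y : ℤ, (A n true y : ℝ) ^ 2 + (A n false y : ℝ) ^ 2 ≤
      (A n true x : ℝ) ^ 2 + (A n false x : ℝ) ^ 2 := by
    intro y
    by_cases hy : y ∈ Finset.Icc (-((n : ℤ) + 1)) ((n : ℤ) + 1)
    · exact hmax y hy
    · rw [Finset.mem_Icc, not_and_or, not_le, not_le] at hy
      have h0 : ∀ b, A n b y = 0 := by
        intro b
        rcases hy with hy | hy
        · exact A_far_left n b y (by omega)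
        · exact A_far_right n b y (by omega)
      rw [h0, h0]
      have h5 : (0 : ℝ) ≤ (A n true x : ℝ) ^ 2 + (A n false x : ℝ) ^ 2 := by positivity
      have h6 : ((0 : ℤ) : ℝ) ^ 2 + ((0 : ℤ) : ℝ) ^ 2 = 0 := by norm_num
      rw [h6]
      exact h5
  have hwin := hC₀ n x (fun y => mul_le_mul_of_nonneg_left (hmax' y) (by positivity))
  -- positivity of the maximum
  have hpos : ∃ b, A n b x ≠ 0 := by
    by_contra hcon
    push Not at hcon
    have := hmax' ((n : ℤ) + 1)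
    rw [hcon, hcon, (A_right n).1, (A_right n).2] at this
    norm_num at this
  obtain ⟨b, hb⟩ := hpos
  have hpar2 : (2 : ℤ) ∣ (n : ℤ) + 1 - x := by
    by_contra hcon
    exact hb (A_parity n b x hcon)
  obtain ⟨q, hq⟩ := hpar2
  have hdiv : ((n : ℝ) + 1) / s = ((n : ℝ) + 1) * s / 2 := by
    rw [div_eq_iff hspos.ne']
    linear_combination (-((n : ℝ) + 1) / 2) * hs2
  rw [hdiv, abs_le] at hwin
  obtain ⟨hw1, hw2⟩ := hwin
  have hnpos : (0 : ℝ) ≤ n := Nat.cast_nonneg n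
  have hns : (n : ℝ) * s ≤ n * 1.5 := mul_le_mul_of_nonneg_left hs1.le hnpos
  have hns' : (n : ℝ) * 1.4 ≤ n * s := mul_le_mul_of_nonneg_left hs0.le hnpos
  have hexp : ((n : ℝ) + 1) * s / 2 = n * s / 2 + s / 2 := by ring
  rw [hexp] at hw1 hw2
  have hxu : (x : ℝ) < n - 1 := by linarith
  have hxl : (n : ℝ) * s / 2 - C ≤ (x : ℝ) - 1 := by linarith
  have hxl2 : (0 : ℝ) < x := by linarith
  have hxu' : x < (n : ℤ) - 1 := by
    have : (x : ℝ) < ((((n : ℤ) - 1 : ℤ)) : ℝ) := by push_cast; exact hxu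
    exact_mod_cast this
  have hxl' : 0 < x := by exact_mod_cast hxl2
  -- write x in terms of numbers of steps
  obtain ⟨j, hj⟩ : ∃ j : ℕ, (j : ℤ) = q - 1 := ⟨(q - 1).toNat, by omega⟩
  obtain ⟨m, hm⟩ : ∃ m : ℕ, (m : ℤ) = n - 2 - j := ⟨((n : ℤ) - 2 - j).toNat, by omega⟩
  have hxe : x = ((m + 1 : ℕ) : ℤ) - j := by push_cast; omega
  have hgrow := hpar.grow m j (by
    have : ((m : ℤ) : ℝ) = (((n : ℤ) - 2 - (j : ℤ) : ℤ) : ℝ) := by rw [hm]
    push_cast at this
    linarith) (by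
    have : (x : ℝ) = (m : ℝ) + 1 - j := by rw [hxe]; push_cast; ring
    linarith)
  have h1 := A_closed n (m + 1) j (by omega)
  have h2 := A_closed n m (j + 1) (by omega)
  have h3 := hmax' ((m : ℤ) - ((j + 1 : ℕ) : ℤ))
  rw [hxe, h1.1, h1.2, h2.1, h2.2] at h3
  push_cast at h3
  nlinarith


end Pool.Agent.S15828
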