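import Pool.Statements.S18419
-- import your own Pool.Agent.* helpers here

set_option autoImplicit false
open Pool Pool.MP_c520af_nt

namespace Pool.Agent.S18419

/-- For every number field K there are maps (x,y) to (y, F_d(y) − δ_d x), with deg F_d = d and δ_d ≠ 0, for each d ≥ 2, whose number of K-rational periodic points eventually exceeds C·d for every constant C. -/
theorem result :
    ∀ (K : Type) [Field K] [NumberField K],
      ∃ (F : ℕ → Polynomial K) (δ : ℕ → K),
        (∀ d : ℕ, 2 ≤ d → (F d).natDegree = d ∧ δ d ≠ 0) ∧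
        ∀ C : ℕ, ∃ D : ℕ, ∀ d : ℕ, 2 ≤ d → D ≤ d →
          (((C * d : ℕ) : ℕ∞) <
            {P : K × K | ∃ n : ℕ, 1 ≤ n ∧
              (fun p : K × K => (p.2, (F d).eval p.2 - δ d * p.1))^[n] P = P}.encard) := by
  classical
  intro K _ _
  -- `F d` vanishes at `0, …, d - 1` and `δ = -1`, so `f` swaps the coordinates on `{0, …, d-1}²`
  refine ⟨fun d => ∏ i ∈ Finset.range d, (Polynomial.X - Polynomial.C (i : K)), fun _ => -1, ?_, ?_⟩
  · intro d _
    refine ⟨?_, by simp⟩
    rw [Polynomial.natDegree_prod_of_monic _ _ (fun i _ => Polynomial.monic_X_sub_C _)]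
    simp only [Polynomial.natDegree_X_sub_C, Finset.sum_const, Finset.card_range, smul_eq_mul, mul_one]
  · intro C
    refine ⟨C + 1, fun d hd hC => ?_⟩
    set S : Set (K × K) := {P : K × K | ∃ n : ℕ, 1 ≤ n ∧
      (fun p : K × K => (p.2, (∏ i ∈ Finset.range d, (Polynomial.X - Polynomial.C (i : K))).eval p.2
        - (-1) * p.1))^[n] P = P} with hS
    have hzero : ∀ j ∈ Finset.range d,
        (∏ i ∈ Finset.range d, (Polynomial.X - Polynomial.C (i : K))).eval (j : K) = 0 := by
      intro j hj
      rw [Polynomial.eval_prod]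
      exact Finset.prod_eq_zero hj (by simp)
    set T : Finset (K × K) := (Finset.range d ×ˢ Finset.range d).image
      (fun p : ℕ × ℕ => ((p.1 : K), (p.2 : K))) with hT
    have hcard : T.card = d * d := by
      rw [hT, Finset.card_image_of_injective]
      · simp
      · rintro ⟨a, b⟩ ⟨a', b'⟩ h
        simp only [Prod.mk.injEq, Nat.cast_inj] at h
        exact Prod.ext h.1 h.2
    have hsub : (T : Set (K × K)) ⊆ S := by
      intro P hP
      rw [hT, Finset.mem_coe, Finset.mem_image] at hP
      obtain ⟨⟨a, b⟩, hab, rfl⟩ := hP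
      rw [Finset.mem_product] at hab
      refine ⟨2, by norm_num, ?_⟩
      have ha := hzero a hab.1
      have hb := hzero b hab.2
      simp only [Function.iterate_succ, Function.iterate_zero, Function.comp_apply, id_eq]
      rw [hb]
      ext
      · simp
      · simp only
        rw [show (0 : K) - (-1) * (a : K) = (a : K) by ring, ha]
        ring
    have h1 : (T : Set (K × K)).encard ≤ S.encard := Set.encard_le_encard hsub
    rw [Set.encard_coe_eq_coe_finsetCard, hcard] at h1
    refine lt_of_lt_of_le ?_ h1
    have : C * d < d * d := Nat.mul_lt_mul_of_pos_right (by omega) (by omega)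
    exact_mod_cast this

end Pool.Agent.S18419
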